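import Pool.Agent.TH131.Kah.Main

/-!
# Abundance for compact Kähler manifolds: deformations and fibrations

Let `𝒦` be the smallest class of compact Kähler manifolds with nef canonical bundle which contains
all those of dimension at most three and is closed under

* products, finite étale covers and finite étale quotients,
* bimeromorphic maps between manifolds with nef canonical bundle,
* deformations: if `f : 𝒳 → B` is a smooth proper map of complex manifolds with connected base, two
  of its fibres `X_s`, `X_t` are Kähler, `X_s` is in `𝒦` and `K_{X_t}` is nef, then `X_t` is in
  `𝒦` (nothing is assumed on the other fibres),
* fibrations: if `K_X` is nef, and a modification of `X` has a fibration over a base of general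
  type, or if the Iitaka fibration of `X` is considered, and the general fibre is bimeromorphic to a
  manifold `F` in `𝒦`, then `X` is in `𝒦`.

Then `K_X` is semiample for all `X` in `𝒦`.
-/

set_option autoImplicit false

namespace Pool.Agent.Results.MP_97d78d_ag.DeformationsAndFibrations

open Pool.Agent.TH131.Kah

/-- Abundance for all manifolds of the class `Reach`. -/
theorem result (D : Manifolds) (hD : Known D) (pr : Products D) (et : EtaleMaps D)
    (bi : Bimeromorphic D) (X : D.M) (hX : Reach D pr et bi X) :
    D.IsNef X ∧ D.IsSemiample X :=
  abundance D hD pr et bi X hX

end Pool.Agent.Results.MP_97d78d_ag.DeformationsAndFibrations
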