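import Pool.Agent.TH585.SV.Mov4

/-!
# Kodaira dimension of fibrations into covers of `ℙᵉ` over moving hyperplanes

Let `X` be a projective manifold of dimension `d + e` and `|V|` a linear system on `X` without fixed
components, of dimension `n`, whose rational map `f : X ⇢ ℙⁿ` has an image `Y` of dimension `d`,
`1 ≤ d ≤ n`, `e ≥ 1`; `Y` may be any nondegenerate variety of dimension `d`, for instance rational.
Suppose:

* (the base) `D i` (`i < q`) are finitely many members of `|V|` which span `V`, in arbitrary position,
  `c` is the number of the components of this configuration (`V` is the direct sum of `c`, but not of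
  `c + 1`, nonzero subspaces such that each `D i` belongs to one of them, the component of `D i`), and
  at every prime divisor `P` of `X` which is a component of some `D i` the multiplicities of `P` in
  two members `D i`, `D i'` of one component of the configuration differ by at least `s`, where
  `s ≥ R (n - d + 1) (n - d + 2) / 2`, `R = n + 3 - c` (if `c = 1` this means that the largest
  multiplicity of `P` in the `D i` is at least `s`; if `c = 1` and there are at least `n + 3`
  different members then `R = n + 1` is enough);
* (the fibres) the generic fibre of `f` has a generically finite rational map to the projective space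
  of dimension `e` over the function field of `Y'`, a variety with a generically finite map to `Y`,
  there are `r` hyperplanes `H i` of this space, over the function field of `Y'` (so they may move
  with the point of `Y'`), in general position, `N (r - e - 1) ≥ r`, and either each prime divisor of
  `X` which dominates `Y` has the multiplicity `0` or at least `N` in the inverse image of `∑ H i`, or
  `N` divides `r` and the map factors through the cyclic cover `b y ^ N = ∏ ℓ i` of degree `N`, `ℓ i`
  the linear form of `H i`, `b` in the function field of `Y'` (for instance `N = 2`, `r = 2 e + 2`,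
  or `r = N = e + 2`).

The fibres are for instance double covers of `ℙᵉ` over `2 e + 2` hyperplanes, which may vary with the
fibre, or Fermat hypersurfaces of degree `e + 2` (Calabi-Yau varieties), or any varieties with
generically finite maps to them. The theorem: `κ(X) ≥ 0`; if `N (r - e - 1) > r` then `κ(X) ≥ e`. If
`s > R (n - d + 1) (n - d + 2) / 2` then `κ(X) ≥ d + 1 - c`, and `κ(X) ≥ d + 1 - c + e` if moreover
`N (r - e - 1) > r`; so `X` is of general type if `c = 1` and both inequalities are strict.

Consequences for Q1 (published theorems, not part of the Lean). If `κ(X) ≥ dim X - 3` then the general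
fibre of the Iitaka fibration of `X` has dimension at most `3` and `X` has a good minimal model by
Lai (Math. Ann. 350 (2011)); if `K_X` is nef then `K_X` is semiample. So Q1 has a positive answer, in
all dimensions, for all `X` of this class for which the two inequalities are strict and `c ≤ 4`, or
the inequality for `s` is strict and `c + e ≤ 4`. For the other `X` of this class the theorem is the
non-vanishing part of the question.

The function-field language of the starting repository is used. `K` is the function field of `X`;
the prime divisors of `X` are places `P` of `K` (`Place`, `Divisorial`), `P.ord` is the order along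
`P`, and `X` is given by the set of its prime divisors. The linear system is given by the finite
dimensional space `V` of rational functions: if `a` is the minimum of the orders at `P` of the
members of `V` then the multiplicity of `P` in the divisor of the system which is given by `f ∈ V` is
`P.ord f - a`. A section of `m K_X` is an `m`-canonical form `ω` (`IsPluri`), a function of `d + e`
rational vector fields, whose value on vector fields that are regular at `P` is regular at `P`, for
all prime divisors `P` of `X`. The prime divisors which dominate `Y` are those at which all nonzero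
elements of `K` which are algebraic over the function field of `Y` are units.

Proof (`Pool.Agent.TH585.SV`, files `Blk`, `Ord`, `Fib` to `Fib9`, `Mov` to `Mov3`). Let `ℓ i` be the
linear forms of the `H i`, evaluated at `z = (1, x)`, and `W (G)` the determinant of the values of `e`
vector fields `G` over the function field of `Y'` at `x`. For `e + 1` forms with indices in `I`, with
the determinant `det I` of their coefficients, `det I · W (G)` is the determinant of the rows `ℓ`,
`G ℓ`. If some function on `Y'` is not a unit at `P` then regular vector fields `G` over the function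
field of `Y'` are logarithmic at `P`, so `det I · W (G) / ∏ ℓ` is regular at `P`. The product `θ (G)`
of these functions over the `r` sets `I` of `e + 1` cyclically consecutive indices is
`c W (G) ^ r / ∏ ℓ i ^ (e + 1)`; at a divisor `P` which dominates `Y` it has order at least
`r (T - 1) - (e + 1) T ≥ 0`, where `T ≥ N` is the sum of the multiplicities of `P` in the `H i` (at
most `e` of them contain `P`). So `θ` is an `r`-canonical form along the fibres which is regular on
`X`; the sections of `m K_X` are products of powers of such forms with generalised Wronskians of `V`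
(`FibresWithForms`, `MP_66b48b_ag`).
-/

set_option autoImplicit false

open FF Pool.Agent.W602.GT

namespace Pool.Agent.Results.MP_97d78d_ag.MovingHyperplanes

/-- The function field of the image of the rational map which is given by the linear system `V`: the
field generated by the quotients of the members. -/
noncomputable def ImageField {K : Type} [Field K] [Algebra ℂ K] (V : Submodule ℂ K) :
    IntermediateField ℂ K :=
  IntermediateField.adjoin ℂ {y : K | ∃ f ∈ V, ∃ g ∈ V, y = f / g}

/-- `γ` is a decomposition of the configuration of the members `φ i` of `V` into `c` components: `V`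
has a basis of `n + 1` elements `x a`, divided into `c` nonempty groups (`x a` is in the group `g a`),
such that `φ i` is in the subspace spanned by the elements of the group `γ i`. -/
def Decomposition (n : ℕ) {q c : ℕ} {K : Type} [Field K] [Algebra ℂ K] (V : Submodule ℂ K)
    (φ : Fin q → K) (γ : Fin q → Fin c) : Prop :=
  ∃ (x : Fin (n + 1) → K) (g : Fin (n + 1) → Fin c), LinearIndependent ℂ x ∧
    Submodule.span ℂ (Set.range x) = V ∧ Function.Surjective g ∧
    ∀ i, φ i ∈ Submodule.span ℂ (x '' {a | g a = γ i})

/-- There are `m` members `φ i` of which no two are proportional. -/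
def Different (m : ℕ) {q : ℕ} {K : Type} [Field K] [Algebra ℂ K] (φ : Fin q → K) : Prop :=
  ∃ τ : Fin m → Fin q, ∀ i j, i ≠ j → ∀ t : ℂ, φ (τ i) ≠ t • φ (τ j)

/-- The condition on the multiplicities, on a variety `X` of dimension `w`: if the prime divisor `P`
of `X` is a component of one of the divisors `D i` (the order of `φ i` at `P` is not the minimum `a`
of the orders of the members of `V`), then for some members `D i`, `D i'` of the same component of
the configuration the difference of the multiplicities of `P` is at least `s`. -/
def Multiplicities (w : ℕ) {q c : ℕ} {K : Type} [Field K] [Algebra ℂ K] (V : Submodule ℂ K)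
    (φ : Fin q → K) (γ : Fin q → Fin c) (X : Set (Place ℂ K)) (s : ℝ) : Prop :=
  ∀ P ∈ X, Divisorial w P → ∀ a : ℤ, (∀ f ∈ V, f = 0 ∨ a ≤ P.ord f) →
    (∃ f ∈ V, f ≠ 0 ∧ P.ord f = a) → (∃ i, P.ord (φ i) ≠ a) →
    ∃ i i', γ i' = γ i ∧ s ≤ ((P.ord (φ i) - P.ord (φ i') : ℤ) : ℝ)

/-- The value at the point `(1 : x 0 : … : x (e - 1))` of the linear form with the coefficients
`a j`. -/
noncomputable def linForm {e : ℕ} {K : Type} [Field K] (a : Fin (e + 1) → K) (x : Fin e → K) : K :=
  ∑ j, a j * (Fin.cons 1 x : Fin (e + 1) → K) j

/-- Hyperplanes over the function field of `Y'`. The `x j` are a transcendence basis of `K` over the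
function field `L` of `Y` (they give the map of the generic fibre to the projective space); the
coefficients `a i` of the `r` hyperplanes are algebraic over `L`; any `e + 1` hyperplanes are
independent; and one of the following holds:

* at each prime divisor `P` of `X` which dominates `Y` (all nonzero elements which are algebraic over
  `L` are units at `P`) the multiplicity of `P` in the sum of the hyperplanes is `0` or at least `N`;
  the multiplicity in one of them is the difference of the order of the linear form and the minimum
  `m` of the orders of the coordinates;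
* `N` divides `r` and the product of the linear forms is `b y ^ N` for some `y` and an element `b`
  algebraic over `L`. -/
def HyperplanesOverBase (w N : ℕ) {e r : ℕ} {K : Type} [Field K] [Algebra ℂ K]
    (X : Set (Place ℂ K)) (L : IntermediateField ℂ K) (a : Fin r → Fin (e + 1) → K)
    (x : Fin e → K) : Prop :=
  IsTranscendenceBasis L x ∧ (∀ i j, IsAlgebraic L (a i j)) ∧
    (∀ τ : Fin (e + 1) → Fin r, Function.Injective τ →
      (Matrix.of fun k j => a (τ k) j).det ≠ 0) ∧
    ((∀ P ∈ X, Divisorial w P → (∀ b : K, IsAlgebraic L b → b ≠ 0 → P.ord b = 0) →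
      ∀ m : ℤ, (∀ j, (Fin.cons 1 x : Fin (e + 1) → K) j = 0 ∨
        m ≤ P.ord ((Fin.cons 1 x : Fin (e + 1) → K) j)) →
      (∃ j, (Fin.cons 1 x : Fin (e + 1) → K) j ≠ 0 ∧
        P.ord ((Fin.cons 1 x : Fin (e + 1) → K) j) = m) →
      ∑ i, (P.ord (linForm (a i) x) - m) = 0 ∨
        (N : ℤ) ≤ ∑ i, (P.ord (linForm (a i) x) - m)) ∨
    (N ∣ r ∧ ∃ b y : K, IsAlgebraic L b ∧ ∏ i, linForm (a i) x = b * y ^ N))

/-- `ω` is a section of `m K_X`, where `X` of dimension `w` is given by the set of its prime divisors:
an `m`-canonical form whose values on vector fields which are regular at `P` are regular at `P`, for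
all prime divisors `P` of `X`. -/
def IsSection {K : Type} [Field K] [Algebra ℂ K] (w : ℕ) (X : Set (Place ℂ K)) (m : ℕ)
    (ω : (Fin w → Derivation ℂ K K) → K) : Prop :=
  IsPluri m ω ∧ ∀ P ∈ X, Divisorial w P → ∀ D : Fin w → Derivation ℂ K K,
    (∀ i, DerReg P (D i)) → P.Reg (ω D)

/-- `κ (X) ≥ κ`: some positive multiple of `K_X` has sections with `κ` algebraically independent
ratios (a nonzero section, if `κ = 0`). -/
def KodairaGe {K : Type} [Field K] [Algebra ℂ K] (w : ℕ) (X : Set (Place ℂ K)) (κ : ℕ) : Prop :=
  ∃ m : ℕ, 0 < m ∧ ∃ ω : Fin (κ + 1) → (Fin w → Derivation ℂ K K) → K,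
    (∀ j, IsSection w X m (ω j)) ∧
    ∃ D, ω 0 D ≠ 0 ∧ AlgebraicIndependent ℂ (fun i : Fin κ => ω i.succ D / ω 0 D)

/-- **Moving hyperplanes.** Let `K` be the function field of a projective manifold `X` of dimension
`d + e`, `V` a linear system of dimension `n` on `X` whose rational map has an image `Y` of dimension
`d`, `1 ≤ d ≤ n`, `e ≥ 1`; `φ i` nonzero members which span `V`, `γ` their decomposition into `c`
components (there is no decomposition into `c + 1` components), `R = n + 3 - c`, or `R = n + 1` if
`c = 1` and there are `n + 3` different members, and `s ≥ R (n - d + 1) (n - d + 2) / 2` a number for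
which the condition on the multiplicities holds. Let `a i` (`i < r`) be moving hyperplanes in the
projective spaces of dimension `e` with total multiplicities at least `N`, or a cyclic cover of degree
`N` over them, `N (r - e - 1) ≥ r`; let
`lam = 0`, or `lam = e` if `N (r - e - 1) > r`. Then `κ(X) ≥ lam`, and `κ(X) ≥ d + 1 - c + lam` if the
inequality for `s` is strict. -/
theorem result (d e n q c : ℕ) (hd : 1 ≤ d) (he : 1 ≤ e) (hdn : d ≤ n) (K : Type) [Field K]
    [Algebra ℂ K] (hK : Algebra.trdeg ℂ K = (d + e : ℕ))
    (V : Submodule ℂ K) (hV : Algebra.trdeg ℂ (ImageField V) = d)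
    (φ : Fin q → K) (hφ0 : ∀ i, φ i ≠ 0) (hφ : Submodule.span ℂ (Set.range φ) = V)
    (γ : Fin q → Fin c) (hγ : Decomposition n V φ γ)
    (hc : ∀ γ' : Fin q → Fin (c + 1), ¬ Decomposition n V φ γ')
    (R : ℕ) (hR : R + c = n + 3 ∨ (c = 1 ∧ Different (n + 3) φ ∧ R = n + 1))
    (X : Set (Place ℂ K)) (s : ℝ)
    (hs : (R : ℝ) * (((n : ℝ) - d + 1) * ((n : ℝ) - d + 2)) ≤ 2 * s)
    (h : Multiplicities (d + e) V φ γ X s) (r N : ℕ) (hr : e + 1 ≤ r)
    (hN : r ≤ N * (r - (e + 1))) (a : Fin r → Fin (e + 1) → K) (x : Fin e → K)
    (hF : HyperplanesOverBase (d + e) N X (ImageField V) a x) (lam : ℕ)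
    (hlam : lam = 0 ∨ (lam = e ∧ r < N * (r - (e + 1)))) :
    KodairaGe (d + e) X lam ∧
      ((R : ℝ) * (((n : ℝ) - d + 1) * ((n : ℝ) - d + 2)) < 2 * s →
        ∀ κ : ℕ, κ + c = d + 1 → KodairaGe (d + e) X (κ + lam)) := by
  have := he
  have hM : Pool.Agent.TH585.SV.MovData (d + e) N X (ImageField V) a x := by
    refine ⟨hF.2.1, hF.2.2.1, hF.1, ?_⟩
    rcases hF.2.2.2 with h1 | ⟨hNr, b, y, hb, hy⟩
    · exact h1
    · intro P _ _ hv m h0 _
      exact Pool.Agent.TH585.SV.mult_cyc hF.2.1
        (Pool.Agent.TH585.SV.mℓ_ne hF.2.1 hF.2.2.1 hF.1 hr) hb hNr hy hv h0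
  obtain ⟨m, hm, θ, hθ, hne⟩ : ∃ m : ℕ, 0 < m ∧ ∃ θ : Fin (lam + 1) →
      (Fin e → Derivation (ImageField V) K K) → K,
      (∀ b, Pool.Agent.TH585.SV.FibSec (d + e) m X (fun _ => 0) (ImageField V) (θ b)) ∧
      ∃ G, θ 0 G ≠ 0 ∧
        AlgebraicIndependent (ImageField V) (fun i : Fin lam => θ i.succ G / θ 0 G) := by
    rcases hlam with rfl | ⟨rfl, hN'⟩
    · exact hM.sec0 hr hN
    · exact hM.secE hr hN'
  obtain ⟨k, rfl⟩ := Nat.exists_eq_add_of_le hdn
  have e1 : ((d + k : ℕ) : ℝ) - d = (k : ℝ) := by
    push_cast
    ring
  rw [e1] at hs ⊢
  obtain ⟨h3, h4⟩ := Pool.Agent.TH585.SV.lin_fib (k := k) (lam := lam) hd rfl hK (V := V) hV hφ0 hφ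
    hγ hc hR X (fun _ => 0) (fun _ => 0) (fun _ => 0) (fun _ _ => le_rfl)
    (fun _ _ => by simp) hs (fun P hPX hPd a ha hb hc => by
      obtain ⟨i, i', h5, h6⟩ := h P hPX hPd a ha hb hc
      exact ⟨i, i', h5, by simpa using h6⟩) hm hθ hne
  have conv : ∀ κ : ℕ, (∃ N : ℕ, 0 < N ∧ ∃ ω : Fin (κ + 1) → (Fin (d + e) → Derivation ℂ K K) → K,
      (∀ j, Pool.Agent.TH766.MC.PairSec (d + e) X (fun _ => 0) N (ω j)) ∧
      ∃ D, ω 0 D ≠ 0 ∧ AlgebraicIndependent ℂ (fun i : Fin κ => ω i.succ D / ω 0 D)) →
      KodairaGe (d + e) X κ := by
    rintro κ ⟨N, hN, ω, h5, h6⟩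
    refine ⟨N, hN, ω, fun j => ⟨(h5 j).1, fun P hPX hPd D hD => ?_⟩, h6⟩
    rcases (h5 j).2 P hPX hPd D hD with h7 | h7
    · exact Or.inl h7
    · right
      have h8 : (0 : ℝ) ≤ (P.ord (ω j D) : ℝ) := by simpa using h7
      exact_mod_cast h8
  exact ⟨conv lam h3, fun hlt κ hκ => conv (κ + lam) (h4 κ hκ hlt)⟩

end Pool.Agent.Results.MP_97d78d_ag.MovingHyperplanes
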