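import Pool.Agent.TH756.PN.Fin

/-!
# Abundance for covers of products of projective spaces over arrangements

For `i < r` let `ℓ i k = 0`, `k < q i`, be hyperplanes in projective `n i`-space, an arbitrary
arrangement (it may be very far from normal crossings), let `N` be the sum of the numbers `n i`, and
let `X` be an abelian cover of the product of the projective spaces which is branched over the
hyperplanes, with multiplicities at least `n i + 2`. Then `κ = ν` for the projective manifolds `V`
birational to `X`, and the common value is the sum of the numbers `n i` over the factors which are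
not of Calabi-Yau type. In particular `K_V` is semiample if it is nef.

The function-field language of the starting repository is used: prime divisors over `X` are the
divisorial places `P` of the function field `K` of `X` (`Divisorial`), `P.ord` is the order along
`P`; `KodGe ℂ K N (fun _ => False) h` says that `κ (V) ≥ h`, `NumLe ℂ K N (fun _ => False) h` that
`ν (V) ≤ h`: for every divisor `A` (generated by a finite set of functions) there is a constant `C`
with `h⁰ (m K_V + A) ≤ C m ^ h` for all `m ≥ 1`; `Psef ℂ K N (fun _ => False)` says that `K_V` is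
pseudo-effective, and `Ruled ℂ K` that `V` is birational to `B × ℙ¹` for some `B`. `Cover`,
`Cover.Free`, `Cover.FunctionField` and `Reducible` are in `Pool/Agent/W602/Cov`.
-/

set_option autoImplicit false

open FF Pool.Agent.W602.Cov Pool.Agent.W602.GT

namespace Pool.Agent.Results.MP_97d78d_ag.ProductCoverAbundance

variable {r N Q R : ℕ} {n q : Fin r → ℕ}

/-- A linear form on the `i`-th factor as a linear form on projective `N`-space, which has the same
affine coordinates as the product of the projective `n i`-spaces; the number of the `j`-th affine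
coordinate of the `i`-th factor is `e ⟨i, j⟩`. -/
noncomputable def onFactor (e : ((i : Fin r) × Fin (n i)) ≃ Fin N) (i : Fin r)
    (φ : Form (n i)) : Form N :=
  φ ∘ₗ LinearMap.funLeft ℂ ℂ (Fin.cases 0 fun j => (e ⟨i, j⟩).succ)

/-- `X` is an abelian cover `y j ^ m j = ∏ i, ∏ k, ℓ i k (x i) ^ e' j i k` of the product of the
projective spaces: the hyperplane at infinity of the `i`-th factor is one of the `ℓ i k`, and the
degree of the equations in the coordinates `x i` of the `i`-th factor is divisible by `m j`. In
affine coordinates this is a cover of the affine part of projective `N`-space, and it is written in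
this way. -/
structure CoverOfProduct (X : Cover N Q R) (e : ((i : Fin r) × Fin (n i)) ≃ Fin N)
    (e' : ((i : Fin r) × Fin (q i)) ≃ Fin Q) (ℓ : ∀ i, Fin (q i) → Form (n i)) : Prop where
  forms : ∀ i k, X.ℓ (e' ⟨i, k⟩) = onFactor e i (ℓ i k)
  infinity : ∀ i, ∃ (k : Fin (q i)) (c : ℂ), ℓ i k = c • LinearMap.proj 0
  degrees : ∀ j i, X.m j ∣ ∑ k, X.e j (e' ⟨i, k⟩)

/-- The multiplicities of the cover `X` are at least `n i + 2`: whenever a germ of a curve in the
product of the projective spaces meets the hyperplanes `ℓ i k = 0` with multiplicities `v i k`, not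
all `0`, and these multiplicities are compatible with the equations of `X`, at least one of the
numbers `v i k` is at least `n i + 2`. -/
def Multiplicities (X : Cover N Q R) (e' : ((i : Fin r) × Fin (q i)) ≃ Fin Q)
    (ℓ : ∀ i, Fin (q i) → Form (n i)) : Prop :=
  ∀ v : ∀ i, Fin (q i) → ℕ, (∃ i, v i ≠ 0) →
    (∀ i, ∃ x : Fin (n i + 1) → ℂ, x ≠ 0 ∧ ∀ k, v i k ≠ 0 → ℓ i k x = 0) →
    (∀ j, X.m j ∣ ∑ i, ∑ k, X.e j (e' ⟨i, k⟩) * v i k) → ∃ i k, n i + 2 ≤ v i k

/-- The arrangement consists of the `n + 2` hyperplanes `ℓ (c j) = 0`, which are in general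
position: each `n + 1` of the forms are linearly independent. Hyperplanes may be listed several
times. -/
def GeneralPosition {n q : ℕ} (ℓ : Fin q → Form n) (c : Fin (n + 2) → Fin q) : Prop :=
  (∀ j : Fin (n + 2), LinearIndependent ℂ fun a => ℓ (c (j.succAbove a))) ∧
    ∀ i, ∃ (j : Fin (n + 2)) (t : ℂ), ℓ i = t • ℓ (c j)

open scoped Classical in
/-- The `i`-th factor is of Calabi-Yau type: the arrangement consists of `n i + 2` hyperplanes in
general position, and for each of them the multiplicities `n i + 2` for this hyperplane and `0` for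
all others are compatible with the equations of `X`. -/
def CalabiYau (X : Cover N Q R) (e' : ((i : Fin r) × Fin (q i)) ≃ Fin Q)
    (ℓ : ∀ i, Fin (q i) → Form (n i)) (i : Fin r) : Prop :=
  ∃ c : Fin (n i + 2) → Fin (q i), GeneralPosition (ℓ i) c ∧
    ∀ j k, X.m k ∣ ∑ l, X.e k (e' ⟨i, l⟩) *
      (if ∃ t : ℂ, ℓ i l = t • ℓ i (c j) then n i + 2 else 0)

open scoped Classical in
/-- Let `X` be an abelian cover of the product of projective spaces of dimensions `n i` over
arbitrary arrangements with multiplicities at least `n i + 2`, with function field `K`. Then one of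
the following holds.
One of the arrangements is reducible, `X` is ruled and the canonical bundle is not pseudo-effective.
None of the arrangements is reducible, and `κ ≥ h`, `ν ≤ h`, so that `κ = ν = h`, where `h` is the
sum of the `n i` over the factors which are not of Calabi-Yau type. -/
theorem result (r N Q R : ℕ) (n q : Fin r → ℕ) (hr : 1 ≤ r) (hn : ∀ i, 1 ≤ n i)
    (ℓ : ∀ i, Fin (q i) → Form (n i)) (X : Cover N Q R)
    (e : ((i : Fin r) × Fin (n i)) ≃ Fin N) (e' : ((i : Fin r) × Fin (q i)) ≃ Fin Q)
    (hX : CoverOfProduct X e e' ℓ) (hF : X.Free) (hm : Multiplicities X e' ℓ) (K : Type)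
    [Field K] [Algebra ℂ K] (z : Fin (N + 1) → K) (y : Fin R → K)
    (hK : X.FunctionField K z y) :
    ((∃ i, Reducible (ℓ i)) ∧ Ruled ℂ K ∧ ¬ Psef ℂ K N (fun _ => False)) ∨
      ((∀ i, ¬ Reducible (ℓ i)) ∧
        KodGe ℂ K N (fun _ => False) (∑ i with ¬ CalabiYau X e' ℓ i, n i) ∧
        Pool.Agent.W619.TW.NumLe ℂ K N (fun _ => False)
          (∑ i with ¬ CalabiYau X e' ℓ i, n i)) := by
  refine Pool.Agent.TH756.PN.abundanceP e e' hr hn X hF hK hX.forms hX.infinity hX.degrees hm
    (Finset.univ.filter fun i => ¬ CalabiYau X e' ℓ i) fun i => ?_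
  rw [Finset.mem_filter]
  exact ⟨fun h => h.2, fun h => ⟨Finset.mem_univ _, h⟩⟩

end Pool.Agent.Results.MP_97d78d_ag.ProductCoverAbundance
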